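import Pool.Agent.H29.DW.Targets
import Pool.Agent.H16.HK.PS
import Pool.Agent.H3.HK.GA

/-!
# PM: Poisson summation for a lattice
-/

set_option autoImplicit false

open MeasureTheory Set Filter Module Complex
open scoped Matrix

namespace Pool.Agent.H9.DW

open Pool.Agent.H29.DW Pool.Agent.H25.HK

section

variable {ι : Type} [Fintype ι]

lemma intvec_mem (n : ι → ℤ) :
    (fun i => (n i : ℝ)) ∈ Submodule.span ℤ (Set.range (Pi.basisFun ℝ ι)) := by
  classical
  have h2 : (fun i => (n i : ℝ)) = ∑ i, n i • (Pi.basisFun ℝ ι) i := by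
    ext j
    simp [Finset.sum_apply, Pi.single_apply]
  rw [h2]
  exact Submodule.sum_mem _ fun i _ => Submodule.smul_mem _ _ (Submodule.subset_span ⟨i, rfl⟩)

lemma summable_int (r : ℝ) (hr : r < -(Fintype.card ι : ℝ)) :
    Summable (fun n : ι → ℤ => ‖(fun i => (n i : ℝ))‖ ^ r) := by
  have hf : finrank ℤ (Submodule.span ℤ (Set.range (Pi.basisFun ℝ ι))) = Fintype.card ι :=
    Module.finrank_eq_card_basis ((Pi.basisFun ℝ ι).restrictScalars ℤ)
  have h1 := ZLattice.summable_norm_rpow (Submodule.span ℤ (Set.range (Pi.basisFun ℝ ι))) r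
    (by rw [hf]; exact hr)
  have hinj : Function.Injective (fun n : ι → ℤ =>
      (⟨fun i => (n i : ℝ), intvec_mem n⟩ : Submodule.span ℤ (Set.range (Pi.basisFun ℝ ι)))) := by
    intro n k h
    have h2 : (fun i => (n i : ℝ)) = (fun i => (k i : ℝ)) := congrArg Subtype.val h
    ext i
    have h3 : (n i : ℝ) = (k i : ℝ) := congrFun h2 i
    exact_mod_cast h3
  have h4 := h1.comp_injective hinj
  exact h4

lemma mulVec_bd (M : Matrix ι ι ℝ) : ∃ c : ℝ, 1 ≤ c ∧ ∀ v : ι → ℝ, ‖M.mulVec v‖ ≤ c * ‖v‖ := by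
  classical
  let L : (ι → ℝ) →L[ℝ] (ι → ℝ) := LinearMap.toContinuousLinearMap M.mulVecLin
  refine ⟨‖L‖ + 1, by linarith [norm_nonneg L], fun v => ?_⟩
  have h1 : ‖L v‖ ≤ ‖L‖ * ‖v‖ := L.le_opNorm v
  have h2 : L v = M.mulVec v := rfl
  rw [h2] at h1
  nlinarith [norm_nonneg v]

end

/-- PM -/
theorem pf_PM : V_PM := by
  intro ι _ _ A hA x₀ G hG hGc ⟨C, hC⟩
  classical
  have hAu : IsUnit A.det := hA.isUnit
  obtain ⟨FG, hFG⟩ : ∃ FG : (ι → ℝ) → ℂ, ∀ ξ, FG ξ = ∫ x : ι → ℝ,
      cexp (-(2 * Real.pi * (∑ i, ξ i * x i) : ℝ) * I) * G x := ⟨_, fun _ => rfl⟩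
  have hC' : ∀ ξ : ι → ℝ, ‖FG ξ‖ ≤ C * (1 + ‖ξ‖) ^ (-(Fintype.card ι + 1 : ℝ)) := by
    intro ξ
    rw [hFG]
    exact hC ξ
  have hC0 : 0 ≤ C := by
    have h1 := (norm_nonneg _).trans (hC' 0)
    rw [norm_zero, add_zero, Real.one_rpow, mul_one] at h1
    exact h1
  -- the dual sum
  obtain ⟨c, hc1, hc⟩ := mulVec_bd A.transpose
  have hs : Summable (fun k : ι → ℤ => ‖FG ((A⁻¹).transpose.mulVec (fun i => (k i : ℝ)))‖) := by
    set r : ℝ := -(Fintype.card ι + 1 : ℝ) with hr
    have hr0 : r ≤ 0 := by rw [hr]; have : (0 : ℝ) ≤ Fintype.card ι := by positivity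
                           linarith
    have h1 : Summable (fun n : ι → ℤ => C * (c ^ (-r) * ‖(fun i => (n i : ℝ))‖ ^ r) +
        if n = 0 then C else 0) := by
      refine Summable.add (((summable_int r (by rw [hr]; linarith)).mul_left _).mul_left _) ?_
      exact (hasSum_ite_eq (0 : ι → ℤ) C).summable
    refine Summable.of_nonneg_of_le (fun _ => norm_nonneg _) (fun k => ?_) h1
    set w : ι → ℝ := (A⁻¹).transpose.mulVec (fun i => (k i : ℝ)) with hw
    have h2 : A.transpose.mulVec w = fun i => (k i : ℝ) := by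
      rw [hw, Matrix.mulVec_mulVec, ← Matrix.transpose_mul, Matrix.nonsing_inv_mul _ hAu,
        Matrix.transpose_one, Matrix.one_mulVec]
    have h3 := hc w
    rw [h2] at h3
    refine (hC' w).trans ?_
    by_cases hk : k = 0
    · rw [if_pos hk]
      have h4 : (1 + ‖w‖) ^ r ≤ 1 := Real.rpow_le_one_of_one_le_of_nonpos
        (by linarith [norm_nonneg w]) hr0
      have h5 : 0 ≤ C * (c ^ (-r) * ‖(fun i => (k i : ℝ))‖ ^ r) := by positivity
      nlinarith
    · rw [if_neg hk, add_zero]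
      refine mul_le_mul_of_nonneg_left ?_ hC0
      have h4 : 0 < ‖(fun i => (k i : ℝ))‖ := by
        rw [norm_pos_iff]
        intro h
        apply hk
        funext i
        have h0 : (k i : ℝ) = 0 := congrFun h i
        exact_mod_cast h0
      have h5 : ‖(fun i => (k i : ℝ))‖ / c ≤ 1 + ‖w‖ := by
        rw [div_le_iff₀ (by linarith)]
        nlinarith [norm_nonneg w]
      have h6 : (1 + ‖w‖) ^ r ≤ (‖(fun i => (k i : ℝ))‖ / c) ^ r :=
        Real.rpow_le_rpow_of_nonpos (by positivity) h5 hr0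
      refine h6.trans (le_of_eq ?_)
      have hcr : 0 < c ^ r := Real.rpow_pos_of_pos (by linarith) _
      have hcn : c ^ (-r) = (c ^ r)⁻¹ := Real.rpow_neg (by linarith) r
      rw [Real.div_rpow h4.le (by linarith), hcn, div_eq_inv_mul]
  have hFGk : ∀ k : ι → ℤ, (∫ x : ι → ℝ, cexp (-(2 * Real.pi *
      (∑ i, (A⁻¹).transpose.mulVec (fun i => (k i : ℝ)) i * x i) : ℝ) * I) * G x) =
      FG ((A⁻¹).transpose.mulVec (fun i => (k i : ℝ))) := fun k => (hFG _).symm
  simp only [hFGk]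
  refine ⟨hs, ?_⟩
  -- the function
  let f : (ι → ℝ) → ℂ := fun x => G (A.mulVec (x + x₀))
  have hcm : Continuous fun x : ι → ℝ => A.mulVec x := by fun_prop
  have hf : Continuous f := hG.comp (hcm.comp (continuous_id.add continuous_const))
  have hGi : Integrable G := hG.integrable_of_hasCompactSupport hGc
  have hGAi : Integrable (fun x => G (A.mulVec x)) := (Pool.Agent.H3.HK.subst A hA G hGi).1
  -- bound
  obtain ⟨M, hM⟩ := hG.bounded_above_of_compact_support hGc
  have hM0 : 0 ≤ M := (norm_nonneg _).trans (hM 0)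
  obtain ⟨c', hc'1, hc'⟩ := mulVec_bd A⁻¹
  obtain ⟨R, hR⟩ := hGc.isCompact.isBounded.exists_norm_le
  have hR' : ∀ x, R < ‖x‖ → G x = 0 := by
    intro x hx
    by_contra h
    exact absurd (hR x (subset_tsupport _ h)) (not_le.2 hx)
  have hfin : ∀ x : ι → ℝ, c' * |R| + ‖x₀‖ < ‖x‖ → f x = 0 := by
    intro x hx
    apply hR'
    by_contra h
    push Not at h
    have h1 := hc' (A.mulVec (x + x₀))
    rw [Matrix.mulVec_mulVec, Matrix.nonsing_inv_mul _ hAu, Matrix.one_mulVec] at h1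
    have h2 : ‖x‖ ≤ ‖x + x₀‖ + ‖x₀‖ := by
      have := norm_sub_le (x + x₀) x₀
      simpa using this
    have h3 : c' * ‖A.mulVec (x + x₀)‖ ≤ c' * |R| :=
      mul_le_mul_of_nonneg_left (h.trans (le_abs_self R)) (by linarith)
    linarith
  obtain ⟨N, hN⟩ : ∃ N : ℤ, c' * |R| + ‖x₀‖ + 1 ≤ N := ⟨_, Int.le_ceil _⟩
  let B : (ι → ℤ) → ℝ := fun m => if m ∈ Finset.Icc (fun _ => -N) (fun _ => N) then M else 0
  have hB : Summable B := by
    apply summable_of_ne_finset_zero (s := Finset.Icc (fun _ => -N) (fun _ => N))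
    intro m hm
    exact if_neg hm
  have hBf : ∀ (m : ι → ℤ) (x : ι → ℝ), (∀ i, x i ∈ Icc (0 : ℝ) 1) →
      ‖f (fun i => x i + m i)‖ ≤ B m := by
    intro m x hx
    by_cases h : m ∈ Finset.Icc (fun _ => -N) (fun _ => N)
    · have : B m = M := if_pos h
      rw [this]
      exact hM _
    · have hBm : B m = 0 := if_neg h
      rw [hBm, hfin, norm_zero]
      by_contra h1
      push Not at h1
      apply h
      rw [Finset.mem_Icc]
      have h2 : ∀ i, |x i + m i| ≤ c' * |R| + ‖x₀‖ := by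
        intro i
        have := (norm_le_pi_norm (fun i => x i + (m i : ℝ)) i).trans h1
        rwa [Real.norm_eq_abs] at this
      have h3 : ∀ i, |(m i : ℝ)| ≤ N := by
        intro i
        have h4 := h2 i
        have h5 := hx i
        rw [abs_le] at h4 ⊢
        constructor
        · linarith [h4.1, h5.2]
        · linarith [h4.2, h5.1]
      constructor
      · intro i
        have := (abs_le.1 (h3 i)).1
        exact_mod_cast this
      · intro i
        have := (abs_le.1 (h3 i)).2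
        exact_mod_cast this
  -- Fourier coefficients
  have hF : ∀ k : ι → ℤ,
      ∫ x : ι → ℝ, cexp (-(2 * Real.pi * (∑ i, (k i : ℝ) * x i) : ℝ) * I) * f x =
      ((|A.det|⁻¹ : ℝ) : ℂ) * (cexp ((2 * Real.pi * (∑ i, (k i : ℝ) * x₀ i) : ℝ) * I) *
          FG ((A⁻¹).transpose.mulVec (fun i => (k i : ℝ)))) := by
    intro k
    have e1 := integral_add_right_eq_self (μ := (volume : Measure (ι → ℝ)))
      (fun x : ι → ℝ => cexp (-(2 * Real.pi * (∑ i, (k i : ℝ) * (x i - x₀ i)) : ℝ) *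
        I) * G (A.mulVec x)) x₀
    have e2 : (fun x : ι → ℝ => cexp (-(2 * Real.pi * (∑ i, (k i : ℝ) * x i) : ℝ) *
        I) * f x) = fun x : ι → ℝ => (fun x : ι → ℝ =>
          cexp (-(2 * Real.pi * (∑ i, (k i : ℝ) * (x i - x₀ i)) : ℝ) *
        I) * G (A.mulVec x)) (x + x₀) := by
      funext x
      simp [f]
    rw [e2, e1]
    have e3 : (fun x : ι → ℝ => cexp (-(2 * Real.pi * (∑ i, (k i : ℝ) * (x i - x₀ i)) : ℝ) *
        I) * G (A.mulVec x)) = fun x : ι → ℝ =>
        cexp ((2 * Real.pi * (∑ i, (k i : ℝ) * x₀ i) : ℝ) * I) *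
        (cexp (-(2 * Real.pi * (∑ i, (k i : ℝ) * x i) : ℝ) * I) *
          G (A.mulVec x)) := by
      funext x
      rw [← mul_assoc, ← Complex.exp_add]
      congr 2
      have : ∑ i, (k i : ℝ) * (x i - x₀ i) = ∑ i, (k i : ℝ) * x i - ∑ i, (k i : ℝ) * x₀ i := by
        rw [← Finset.sum_sub_distrib]
        exact Finset.sum_congr rfl fun i _ => by ring
      rw [this]
      push_cast
      ring
    rw [e3, integral_const_mul]
    set w : ι → ℝ := (A⁻¹).transpose.mulVec (fun i => (k i : ℝ)) with hw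
    have hkx : ∀ x : ι → ℝ, ∑ i, (k i : ℝ) * x i = ∑ i, w i * (A.mulVec x) i := by
      intro x
      change (fun i => (k i : ℝ)) ⬝ᵥ x = w ⬝ᵥ A.mulVec x
      rw [hw, Matrix.mulVec_transpose, ← Matrix.dotProduct_mulVec, Matrix.mulVec_mulVec,
        Matrix.nonsing_inv_mul _ hAu, Matrix.one_mulVec]
    have hi : Integrable (fun v : ι → ℝ => cexp (-(2 * Real.pi * (∑ i, w i * v i) : ℝ) * I) *
        G v) := by
      refine hGi.bdd_mul (c := 1) ?_ (Filter.Eventually.of_forall fun x => ?_)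
      · exact (by fun_prop : Continuous fun v : ι → ℝ =>
          cexp (-(2 * Real.pi * (∑ i, w i * v i) : ℝ) * I)).aestronglyMeasurable
      · rw [← Complex.ofReal_neg, Complex.norm_exp_ofReal_mul_I]
    have e4 := (Pool.Agent.H3.HK.subst A hA _ hi).2
    have e5 : (fun x : ι → ℝ => cexp (-(2 * Real.pi * (∑ i, (k i : ℝ) * x i) : ℝ) * I) *
        G (A.mulVec x)) = fun x => cexp (-(2 * Real.pi * (∑ i, w i * (A.mulVec x) i) : ℝ) * I) *
        G (A.mulVec x) := by
      funext x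
      rw [hkx]
    rw [e5, e4, ← hFG]
    ring
  have h := Pool.Agent.H16.HK.ps ι f B hf (hGAi.comp_add_right x₀) hBf hB
    (by
      simp only [hF]
      refine Summable.mul_left _ (Summable.of_norm ?_)
      refine hs.congr fun k => ?_
      rw [norm_mul, Complex.norm_exp_ofReal_mul_I, one_mul])
  simp only [hF] at h
  rw [← tsum_mul_left]
  exact h

end Pool.Agent.H9.DW
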