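import Pool.Agent.H29.DW.Targets
import Pool.Agent.H3.LC.GR

/-!
# GH: the quotient of the Gamma factors, with the analytic conductor
-/

set_option autoImplicit false

open NumberField NumberField.InfinitePlace Complex

namespace Pool.Agent.H9.DW

open Pool.Agent.H29.DW Pool.Agent.H23.LC Pool.Agent.H23.GLM Pool.Agent.H25.HK Pool.Agent.H3.LC

/-- one factor -/
theorem fac_h {s : ℂ} (hs : 1 / 2 ≤ s.re) (hs' : s.re ≤ 3 / 2) {κ : ℝ} (hκ : 0 ≤ κ) {ν Q R : ℝ}
    (hQ : 1 ≤ Q) (hR : 1 ≤ R) (hb : 3 / 2 + κ + |s.im + ν| ≤ 4 * (Q * R)) :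
    ‖Gammaℝ (s + κ + ν * I) * (Gammaℝ (1 - s + κ - ν * I))⁻¹‖ ≤
      4 * AR * (Q ^ (s.re - 1 / 2) * R ^ (s.re - 1 / 2)) := by
  have hA := AR_ge
  obtain ⟨z, hz⟩ : ∃ z : ℂ, z = ((1 / 2 + κ : ℝ) : ℂ) + ((s.im + ν : ℝ) : ℂ) * I := ⟨_, rfl⟩
  obtain ⟨x, hx⟩ : ∃ x : ℝ, x = s.re - 1 / 2 := ⟨_, rfl⟩
  have hx0 : 0 ≤ x := by rw [hx]; linarith
  have hx1 : x ≤ 1 := by rw [hx]; linarith
  have hzre : z.re = 1 / 2 + κ := by rw [hz]; simp
  have hzim : z.im = s.im + ν := by rw [hz]; simp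
  have e1 : s + κ + ν * I = z + x := by
    apply Complex.ext
    · rw [add_re, add_re, add_re, hzre, hx]
      simp
      ring
    · rw [add_im, add_im, add_im, hzim, hx]
      simp
  have e2 : (starRingEnd ℂ) (1 - s + κ - ν * I) = z - x := by
    apply Complex.ext
    · rw [conj_re, sub_re, sub_re, add_re, sub_re, hzre, hx]
      simp
      ring
    · rw [conj_im, sub_im, sub_im, add_im, sub_im, hzim, hx]
      simp
      ring
  have h1 : ‖Gammaℝ (s + κ + ν * I) * (Gammaℝ (1 - s + κ - ν * I))⁻¹‖ =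
      ‖Gammaℝ (z + x) * (Gammaℝ (z - x))⁻¹‖ := by
    rw [norm_mul, norm_mul, norm_inv, norm_inv, e1, ← norm_Gammaℝ_conj (1 - s + κ - ν * I), e2]
  rw [h1]
  refine (ratioR hx0 hx1 (by rw [hzre]; linarith)).trans ?_
  have hn : ‖z‖ ≤ 1 / 2 + κ + |s.im + ν| := by
    rw [hz]
    refine (norm_add_le _ _).trans ?_
    rw [norm_mul, norm_I, mul_one, Complex.norm_real, Complex.norm_real,
      Real.norm_of_nonneg (by linarith : (0 : ℝ) ≤ 1 / 2 + κ), Real.norm_eq_abs]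
  have hQ0 : 0 ≤ Q := by linarith
  have hR0 : 0 ≤ R := by linarith
  have h2 : 1 + ‖z‖ ≤ 4 * (Q * R) := by linarith
  have h3 : (1 + ‖z‖) ^ x ≤ 4 * (Q ^ x * R ^ x) := by
    calc (1 + ‖z‖) ^ x ≤ (4 * (Q * R)) ^ x :=
          Real.rpow_le_rpow (by positivity) h2 hx0
      _ = 4 ^ x * (Q ^ x * R ^ x) := by
          rw [Real.mul_rpow (by norm_num) (by positivity), Real.mul_rpow hQ0 hR0]
      _ ≤ 4 * (Q ^ x * R ^ x) := by
          refine mul_le_mul_of_nonneg_right ?_ (by positivity)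
          calc (4 : ℝ) ^ x ≤ 4 ^ (1 : ℝ) := Real.rpow_le_rpow_of_exponent_le (by norm_num) hx1
            _ = 4 := Real.rpow_one 4
  rw [hx] at h3 ⊢
  calc AR * (1 + ‖z‖) ^ (s.re - 1 / 2) ≤ AR * (4 * (Q ^ (s.re - 1 / 2) * R ^ (s.re - 1 / 2))) :=
        mul_le_mul_of_nonneg_left h3 (by linarith)
    _ = _ := by ring

/-- GH -/
theorem pf_GH : V_GH := by
  intro n
  have hA := AR_ge
  refine ⟨(4 * AR) ^ n, by positivity, ?_⟩
  intro K _ _ hn k ν t hk s hs hs'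
  classical
  obtain ⟨R, hR⟩ : ∃ R : ℝ, R = 1 + |s.im + t| := ⟨_, rfl⟩
  have hR1 : 1 ≤ R := by
    have := abs_nonneg (s.im + t)
    rw [hR]
    linarith
  obtain ⟨x, hx⟩ : ∃ x : ℝ, x = s.re - 1 / 2 := ⟨_, rfl⟩
  have hx0 : 0 ≤ x := by rw [hx]; linarith
  have hx1 : x ≤ 1 := by rw [hx]; linarith
  obtain ⟨Q, hQ⟩ : ∃ Q : InfinitePlace K → ℝ, Q = fun v => 1 + |t - ν v| + |(k v : ℝ)| := ⟨_, rfl⟩
  have hQv : ∀ v, Q v = 1 + |t - ν v| + |(k v : ℝ)| := fun v => by rw [hQ]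
  have hQ1 : ∀ v, 1 ≤ Q v := by
    intro v
    have h1 := abs_nonneg (t - ν v)
    have h2 := abs_nonneg (k v : ℝ)
    rw [hQv]
    linarith
  have hbd : ∀ (v : InfinitePlace K) (κ : ℝ), κ ≤ 1 + |(k v : ℝ)| →
      3 / 2 + κ + |s.im + ν v| ≤ 4 * (Q v * R) := by
    intro v κ h
    have h1 : |s.im + ν v| ≤ |s.im + t| + |t - ν v| := by
      have : s.im + ν v = (s.im + t) - (t - ν v) := by ring
      rw [this]
      exact abs_sub _ _
    have h2 := abs_nonneg (t - ν v)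
    have h3 := abs_nonneg (k v : ℝ)
    have h4 := abs_nonneg (s.im + t)
    have h5 : Q v * R = Q v + R - 1 + (Q v - 1) * (R - 1) := by ring
    have h6 : 0 ≤ (Q v - 1) * (R - 1) := mul_nonneg (by linarith [hQ1 v]) (by linarith)
    have h7 := hQv v
    rw [h5]
    linarith
  have hP : ∀ v, 0 ≤ Q v ^ x * R ^ x := fun v =>
    mul_nonneg (Real.rpow_nonneg (by linarith [hQ1 v]) _) (Real.rpow_nonneg (by linarith) _)
  unfold Ci
  rw [← hR, ← hx]
  unfold gG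
  rw [← Finset.prod_inv_distrib, ← Finset.prod_mul_distrib, norm_prod]
  have key : ∀ v : InfinitePlace K,
      ‖(if v.IsReal then Gammaℝ (s + k v - (-ν) v * I)
          else Gammaℂ (s + |(k v : ℝ)| / 2 - (-ν) v * I)) *
        (if v.IsReal then Gammaℝ (1 - s + k v - ν v * I)
          else Gammaℂ (1 - s + |(k v : ℝ)| / 2 - ν v * I))⁻¹‖ ≤
        (4 * AR * (Q v ^ x * R ^ x)) ^ v.mult := by
    intro v
    have eν : (((-ν) v : ℝ) : ℂ) = -(ν v : ℂ) := by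
      rw [Pi.neg_apply, ofReal_neg]
    by_cases hv : v.IsReal
    · rw [if_pos hv, if_pos hv]
      have hm : v.mult = 1 := by
        unfold InfinitePlace.mult
        rw [if_pos hv]
      rw [hm, pow_one]
      obtain ⟨κ, hκ⟩ : ∃ κ : ℝ, κ = (k v : ℝ) := ⟨_, rfl⟩
      have hκ0 : 0 ≤ κ ∧ κ ≤ 1 := by
        rcases hk v hv with h | h <;> rw [hκ, h] <;> norm_num
      have h1 := fac_h hs hs' hκ0.1 (hQ1 v) hR1
        (hbd v κ (by linarith [hκ0.2, abs_nonneg (k v : ℝ)]))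
      rw [← hx] at h1
      have e1 : s + (k v : ℂ) - (((-ν) v : ℝ) : ℂ) * I = s + κ + ν v * I := by
        rw [eν, hκ]
        push_cast
        ring
      have e2 : 1 - s + (k v : ℂ) - ν v * I = 1 - s + κ - ν v * I := by
        rw [hκ]
        push_cast
        ring
      rw [e1, e2]
      exact h1
    · rw [if_neg hv, if_neg hv]
      have hm : v.mult = 2 := by
        unfold InfinitePlace.mult
        rw [if_neg hv]
      rw [hm, ← Gammaℝ_mul_Gammaℝ_add_one, ← Gammaℝ_mul_Gammaℝ_add_one]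
      obtain ⟨κ, hκ⟩ : ∃ κ : ℝ, κ = |(k v : ℝ)| / 2 := ⟨_, rfl⟩
      have hκ0 : 0 ≤ κ := by rw [hκ]; positivity
      have h3 := abs_nonneg (k v : ℝ)
      have h1 := fac_h hs hs' hκ0 (hQ1 v) hR1 (hbd v κ (by linarith))
      have h2 := fac_h hs hs' (κ := κ + 1) (by linarith) (hQ1 v) hR1 (hbd v (κ + 1) (by linarith))
      rw [← hx] at h1 h2
      have e1 : s + |(k v : ℝ)| / 2 - (((-ν) v : ℝ) : ℂ) * I = s + κ + ν v * I := by
        rw [eν, hκ]
        push_cast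
        ring
      have e2 : 1 - s + |(k v : ℝ)| / 2 - ν v * I = 1 - s + κ - ν v * I := by
        rw [hκ]
        push_cast
        ring
      have e3 : s + κ + ν v * I + 1 = s + ((κ + 1 : ℝ) : ℂ) + ν v * I := by
        push_cast
        ring
      have e4 : 1 - s + κ - ν v * I + 1 = 1 - s + ((κ + 1 : ℝ) : ℂ) - ν v * I := by
        push_cast
        ring
      rw [e1, e2, e3, e4]
      have e5 : Gammaℝ (s + κ + ν v * I) * Gammaℝ (s + ((κ + 1 : ℝ) : ℂ) + ν v * I) *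
          (Gammaℝ (1 - s + κ - ν v * I) * Gammaℝ (1 - s + ((κ + 1 : ℝ) : ℂ) - ν v * I))⁻¹ =
          (Gammaℝ (s + κ + ν v * I) * (Gammaℝ (1 - s + κ - ν v * I))⁻¹) *
          (Gammaℝ (s + ((κ + 1 : ℝ) : ℂ) + ν v * I) *
            (Gammaℝ (1 - s + ((κ + 1 : ℝ) : ℂ) - ν v * I))⁻¹) := by
        rw [mul_inv]
        ring
      rw [e5, norm_mul, sq]
      have hPv := hP v
      exact mul_le_mul h1 h2 (norm_nonneg _) (by positivity)
  refine (Finset.prod_le_prod (fun v _ => norm_nonneg _) fun v _ => key v).trans ?_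
  have e1 : ∏ v : InfinitePlace K, (4 * AR * (Q v ^ x * R ^ x)) ^ v.mult =
      (4 * AR) ^ n * ((∏ v : InfinitePlace K, Q v ^ v.mult) ^ x * (R ^ x) ^ n) := by
    have h1 : ∀ v : InfinitePlace K, (4 * AR * (Q v ^ x * R ^ x)) ^ v.mult =
        (4 * AR * R ^ x) ^ v.mult * (Q v ^ v.mult) ^ x := by
      intro v
      have h2 : (Q v ^ v.mult) ^ x = (Q v ^ x) ^ v.mult := by
        rw [← Real.rpow_natCast, ← Real.rpow_natCast, ← Real.rpow_mul (by linarith [hQ1 v]),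
          ← Real.rpow_mul (by linarith [hQ1 v]), mul_comm]
      rw [h2, ← mul_pow]
      congr 1
      ring
    rw [Finset.prod_congr rfl fun v _ => h1 v, Finset.prod_mul_distrib, Finset.prod_pow_eq_pow_sum,
      InfinitePlace.sum_mult_eq, hn, Real.finsetProd_rpow _ _ fun v _ =>
        pow_nonneg (by linarith [hQ1 v]) _, mul_pow]
    ring
  have e0 : ∏ v : InfinitePlace K, (1 + |t - ν v| + |(k v : ℝ)|) ^ v.mult =
      ∏ v : InfinitePlace K, Q v ^ v.mult := Finset.prod_congr rfl fun v _ => by rw [hQv]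
  rw [e1, e0, mul_assoc]
  refine mul_le_mul_of_nonneg_left ?_ (by positivity)
  refine mul_le_mul_of_nonneg_left ?_ (Real.rpow_nonneg
    (Finset.prod_nonneg fun v _ => pow_nonneg (by linarith [hQ1 v]) _) _)
  refine pow_le_pow_left₀ (Real.rpow_nonneg (by linarith) _) ?_ n
  calc R ^ x ≤ R ^ (1 : ℝ) := Real.rpow_le_rpow_of_exponent_le hR1 hx1
    _ = R := Real.rpow_one R

end Pool.Agent.H9.DW
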